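import Mathlib
import Pool.Agent.Lib.MP_2725c9_mp.H22.Defs
import Pool.Agent.Lib.MP_2725c9_mp.H22.Neg
import Pool.Agent.Lib.MP_2725c9_mp.H22.Pos2

/-! MP_2725c9_mp: for which tensor products do classical optimizers always exist?
Exactly for those with at most two factors of dimension at least two. -/

set_option autoImplicit false
open Matrix
open scoped ComplexOrder

namespace Pool.Agent.Results.MP_2725c9_mp.ThreeFactors

open Pool.Agent.MP2725c9

lemma weak_of_strong {n : ℕ} {d : Fin n → ℕ} (h : ClassicalOptimizers d) :
    WeakClassicalOptimizers d := by
  intro s hs f hcont hconv hinv ε hε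
  have hstc : ∀ I, Convex ℝ (states (Idx d I)) := by
    intro I ρ hρ σ hσ a b ha hb hab
    refine ⟨?_, ?_⟩
    · exact (hρ.1.smul ha).add (hσ.1.smul hb)
    · rw [Matrix.trace_add, Matrix.trace_smul, Matrix.trace_smul, hρ.2, hσ.2, ← add_smul, hab,
        one_smul]
  obtain ⟨τ, h1, h2, h3⟩ := h (fun x => if x ∈ s then 1 / 4 else 0)
    (fun x => by split_ifs <;> norm_num)
    (by
      rw [← Finset.sum_filter, Finset.filter_univ_mem, Finset.sum_const, hs]
      norm_num)
    f (fun I => (hcont I).continuousOn)
    (fun I => (hconv I).subset (Set.subset_univ _) (hstc I))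
    (fun I U hU ρ _ => hinv I U hU ρ)
  exact ⟨τ, h1, h2, fun σ hσ => (h3 σ hσ).trans (by linarith)⟩

/-- For given `n` and dimensions `d i ≥ 1` the following are equivalent: the statement of Q1 for
these spaces (every spectrum `p`, every family of functions that are continuous, convex and
unitarily invariant on the density matrices); its much weaker form (only the spectra with four
entries `1/4`, only functions that are continuous, convex and unitarily invariant on all matrices,
approximate maximality); at most two of the factors have dimension at least two. -/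
theorem result (n : ℕ) (d : Fin n → ℕ) (hd : ∀ i, 1 ≤ d i) :
    List.TFAE [ClassicalOptimizers d, WeakClassicalOptimizers d,
      (Finset.univ.filter fun i => 2 ≤ d i).card ≤ 2] := by
  tfae_have 1 → 2 := weak_of_strong
  tfae_have 2 → 3 := fun h => by
    by_contra h3
    exact neg_half hd (by omega) h
  tfae_have 3 → 1 := pos_half hd
  tfae_finish

end Pool.Agent.Results.MP_2725c9_mp.ThreeFactors
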